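import Pool.Agent.H356PF.Products

set_option autoImplicit false

/-! Products of sets of bounded doubling, with an explicit constant. -/

namespace Pool.Agent.H356PF

open Finset
open Pool.Agent.Y806.DF Pool.Agent.R92.Star
open scoped Pointwise

universe u w

theorem sc_of_cover {Γ : Type u} [AddCommGroup Γ] [DecidableEq Γ] {A : Finset Γ}
    {K : ℝ} (hK : 3 / 2 ≤ K) {c n : ℕ} {d : ℕ} {B : Set (Fin d → ℝ)} {ψ : (Fin d → ℤ) →+ Γ}
    {H : AddSubgroup Γ} {T : Finset Γ} (hd : (d : ℝ) ≤ c * Real.log (2 * K)) (hB : Body B)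
    (hH : Finite H) (hvol : (lat B).ncard * Nat.card H ≤ A.card) (hT : (T.card : ℝ) ≤ K ^ n)
    (hcov : Cov B ψ H T A) : SC (K ^ (6 * c)) (K * A.card) (K ^ n) A := by
  have hK1 : 1 ≤ K := by linarith
  have hsym : Sym B := ⟨hB.1, hB.2.1, hB.2.2.2, hB.2.2.1.mono interior_subset⟩
  have hfin : (lat B).Finite := lat_finite hB.2.1.isBounded
  have h2 : (2 : ℝ) ≤ K ^ 2 := by nlinarith
  have h2K : 2 * K ≤ K ^ 3 := by
    calc 2 * K ≤ K ^ 2 * K := mul_le_mul_of_nonneg_right h2 (by linarith)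
      _ = K ^ 3 := by ring
  have hdd : (4 : ℝ) ^ d ≤ K ^ (6 * c) := by
    have e2 : Real.log 4 ≤ 2 := by
      rw [show (4 : ℝ) = 2 ^ 2 by norm_num, Real.log_pow]
      have := Real.log_two_lt_d9
      push_cast
      linarith
    have e3 : Real.log ((4 : ℝ) ^ d) ≤ Real.log ((2 * K) ^ (2 * c)) := by
      rw [Real.log_pow, Real.log_pow]
      calc (d : ℝ) * Real.log 4 ≤ d * 2 := mul_le_mul_of_nonneg_left e2 (Nat.cast_nonneg _)
        _ ≤ (c * Real.log (2 * K)) * 2 := mul_le_mul_of_nonneg_right hd (by norm_num)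
        _ = ((2 * c : ℕ) : ℝ) * Real.log (2 * K) := by push_cast; ring
    have e4 : (4 : ℝ) ^ d ≤ (2 * K) ^ (2 * c) :=
      (Real.log_le_log_iff (by positivity) (by positivity)).1 e3
    calc (4 : ℝ) ^ d ≤ (2 * K) ^ (2 * c) := e4
      _ ≤ (K ^ 3) ^ (2 * c) := pow_le_pow_left₀ (by positivity) h2K _
      _ = K ^ (6 * c) := by rw [← pow_mul]; congr 1; ring
  refine ⟨d, hfin.toFinset, ψ, H, T, ?_, hH, ?_, ?_, ?_, hT, ?_⟩
  · refine ⟨0, ?_⟩
    rw [Set.Finite.mem_toFinset]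
    show re 0 ∈ B
    have : re (0 : Fin d → ℤ) = 0 := by funext i; simp [re]
    rw [this]
    exact hsym.zero
  · have h1 : (hfin.toFinset + hfin.toFinset).card ≤ num B 2 := by
      rw [num, Set.ncard_eq_toFinset_card _ (hsym.finite 2)]
      refine Finset.card_le_card ?_
      intro x hx
      obtain ⟨a, ha, b, hb, rfl⟩ := Finset.mem_add.1 hx
      rw [Set.Finite.mem_toFinset] at ha hb ⊢
      have ha' : a ∈ lat ((1 : ℝ) • B) := by rw [one_smul]; exact ha
      have hb' : b ∈ lat ((1 : ℝ) • B) := by rw [one_smul]; exact hb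
      have h2 := hsym.add (by norm_num) (by norm_num) ha' hb'
      norm_num at h2
      exact h2
    have h2 : num B 2 ≤ 4 ^ d * hfin.toFinset.card := by
      have h3 := num_double hsym (t := 1) (by norm_num)
      rw [mul_one] at h3
      have h4 : num B 1 = hfin.toFinset.card := by
        rw [num, one_smul]
        exact Set.ncard_eq_toFinset_card _ hfin
      rwa [h4] at h3
    calc ((hfin.toFinset + hfin.toFinset).card : ℝ) ≤ ((4 ^ d * hfin.toFinset.card : ℕ) : ℝ) := by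
          exact_mod_cast h1.trans h2
      _ = (4 : ℝ) ^ d * hfin.toFinset.card := by push_cast; rfl
      _ ≤ _ := mul_le_mul_of_nonneg_right hdd (Nat.cast_nonneg _)
  · intro v hv
    rw [Finset.mem_coe, Set.Finite.mem_toFinset]
    refine convexHull_min ?_ hsym.conv hv
    rintro _ ⟨x, hx, rfl⟩
    rw [Finset.mem_coe, Set.Finite.mem_toFinset] at hx
    exact hx
  · have h1 : (hfin.toFinset.card : ℝ) * Nat.card H ≤ A.card := by
      rw [Set.ncard_eq_toFinset_card _ hfin] at hvol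
      exact_mod_cast hvol
    have h0 : (0 : ℝ) ≤ A.card := Nat.cast_nonneg _
    nlinarith
  · intro a ha
    obtain ⟨t, ht, x, hx, h, hh, e⟩ := hcov a ha
    exact ⟨t, ht, x, (Set.Finite.mem_toFinset _).2 hx, h, hh, e⟩

theorem factor_bounded {K0 : ℝ} {N : ℕ}
    (hN : 13000 * (1 + Real.log (1 + Real.log (2 * K0))) ≤ N) (Γ : Type u) [AddCommGroup Γ]
    [DecidableEq Γ] (A : Finset Γ) (hA : A.Nonempty) (hK0 : ((A + A).card : ℝ) ≤ K0 * A.card) :
    SC ((dbl A) ^ (3 * N + 1800)) (dbl A * A.card) ((dbl A) ^ (3 * N + 1800)) A := by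
  obtain ⟨K, hKdef⟩ : ∃ K, K = dbl A := ⟨_, rfl⟩
  have hK1 : 1 ≤ K := by rw [hKdef]; exact one_le_dbl hA
  have hcard : K * A.card = (A + A).card := by rw [hKdef]; exact dbl_mul hA
  have hApos : (0 : ℝ) < A.card := by exact_mod_cast hA.card_pos
  rw [← hKdef]
  have hKK0 : K ≤ K0 := by
    rw [← hcard] at hK0
    exact le_of_mul_le_mul_right hK0 hApos
  by_cases hK : K < 3 / 2
  · have h1 : ((A + A).card : ℝ) < 3 / 2 * A.card := by
      rw [← hcard]; exact mul_lt_mul_of_pos_right hK hApos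
    obtain ⟨H, t, hH, hcos, hHc⟩ := small_doubling hA h1
    refine (SC.coset hH hcos (N := K * A.card) ?_).mono (one_le_pow₀ hK1) le_rfl
      (one_le_pow₀ hK1)
    rw [hcard, hHc]
  · push Not at hK
    obtain ⟨d, B, ψ, H, T, hd, hB, hH, hvol, hT, hcov⟩ := H112.near_pfr hA hcard.ge
    have hlog0 : 0 ≤ Real.log (2 * K) := Real.log_nonneg (by linarith)
    have h1 : Real.log (2 * K) ≤ Real.log (2 * K0) := Real.log_le_log (by linarith) (by linarith)
    have h2 : Real.log (1 + Real.log (2 * K)) ≤ Real.log (1 + Real.log (2 * K0)) :=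
      Real.log_le_log (by linarith) (by linarith)
    have h3 : 13000 * (1 + Real.log (1 + Real.log (2 * K))) ≤ (N : ℝ) := by linarith
    have h5 : (1 : ℝ) ≤ 2 * K := by linarith
    have h6 : (2 : ℝ) ≤ K ^ 2 := by nlinarith
    have h2K : 2 * K ≤ K ^ 3 := by
      calc 2 * K ≤ K ^ 2 * K := mul_le_mul_of_nonneg_right h6 (by linarith)
        _ = K ^ 3 := by ring
    have hT' : (T.card : ℝ) ≤ K ^ (3 * N) := by
      calc (T.card : ℝ) ≤ (2 * K) ^ (13000 * (1 + Real.log (1 + Real.log (2 * K)))) := hT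
        _ ≤ (2 * K) ^ (N : ℝ) := Real.rpow_le_rpow_of_exponent_le h5 h3
        _ = (2 * K) ^ N := Real.rpow_natCast _ _
        _ ≤ (K ^ 3) ^ N := pow_le_pow_left₀ (by linarith) h2K N
        _ = K ^ (3 * N) := (pow_mul _ _ _).symm
    refine (sc_of_cover (A := A) (c := 300) (n := 3 * N) hK (by exact_mod_cast hd)
      ⟨hB.1, hB.2.1, hB.2.2.1, hB.2.2.2⟩ hH hvol hT' hcov).mono
      (pow_le_pow_right₀ hK1 (by omega)) le_rfl (pow_le_pow_right₀ hK1 (by omega))

/-- **Products of sets of bounded doubling.** -/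
theorem products_bounded {K0 : ℝ} (hK0 : 1 ≤ K0) {ι : Type w} [Fintype ι] [DecidableEq ι]
    {Γ : ι → Type u} [∀ i, AddCommGroup (Γ i)] [∀ i, DecidableEq (Γ i)] (A : ∀ i, Finset (Γ i))
    (hA : ∀ i, (A i).Nonempty) (hAK : ∀ i, ((A i + A i).card : ℝ) ≤ K0 * (A i).card) :
    Concl (250000000 * (1 + Real.log (1 + Real.log (2 * K0)))) (dbl (Fintype.piFinset A))
      (Fintype.piFinset A) := by
  obtain ⟨l, hl⟩ : ∃ l, l = Real.log (1 + Real.log (2 * K0)) := ⟨_, rfl⟩
  have hlog0 : 0 ≤ Real.log (2 * K0) := Real.log_nonneg (by linarith)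
  have hl0 : 0 ≤ l := by rw [hl]; exact Real.log_nonneg (by linarith)
  obtain ⟨N, hN1, hN2⟩ : ∃ N : ℕ, 13000 * (1 + l) ≤ N ∧ (N : ℝ) ≤ 13000 * (1 + l) + 1 := by
    refine ⟨⌈13000 * (1 + l)⌉₊, Nat.le_ceil _, (Nat.ceil_lt_add_one (by positivity)).le⟩
  rw [← hl]
  have hN : 13000 * (1 + Real.log (1 + Real.log (2 * K0))) ≤ N := by rw [← hl]; exact hN1
  obtain ⟨n, hn⟩ : ∃ n, n = 3 * N + 1800 := ⟨_, rfl⟩
  have hn1 : ((n + 1 : ℕ) : ℝ) ≤ 42000 * (1 + l) := by
    rw [hn]; push_cast; linarith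
  have hne : (Fintype.piFinset A).Nonempty := Fintype.piFinset_nonempty.2 hA
  have h1 : ∀ i, SC ((dbl (A i)) ^ n) (dbl (A i) * (A i).card) ((dbl (A i)) ^ n)
      ((A i).image (AddMonoidHom.single Γ i)) := by
    intro i
    rw [hn]
    exact SC.image (AddMonoidHom.single Γ i) (factor_bounded hN (Γ i) (A i) (hA i) (hAK i))
  have hpos : ∀ i, 0 ≤ dbl (A i) := fun i => zero_le_one.trans (one_le_dbl (hA i))
  have h2 := SC.sum (Finset.univ : Finset ι) (fun i => (dbl (A i)) ^ n)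
    (fun i => dbl (A i) * (A i).card) (fun i => (dbl (A i)) ^ n)
    (fun i => (A i).image (AddMonoidHom.single Γ i)) (fun i _ => pow_nonneg (hpos i) n)
    (fun i _ => mul_nonneg (hpos i) (Nat.cast_nonneg _)) (fun i _ => pow_nonneg (hpos i) n)
    (fun i _ => h1 i)
  rw [Finset.prod_pow, Finset.prod_mul_distrib, ← dbl_pi] at h2
  have hcard : ∏ i, ((A i).card : ℝ) = (Fintype.piFinset A).card := by
    rw [Fintype.card_piFinset]; push_cast; rfl
  rw [hcard] at h2
  obtain ⟨K, hK⟩ : ∃ K, K = dbl (Fintype.piFinset A) := ⟨_, rfl⟩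
  have hK1 : 1 ≤ K := by rw [hK]; exact one_le_dbl hne
  have hKm := dbl_mul hne
  rw [← hK] at h2 hKm ⊢
  have hle : K ^ n ≤ K ^ (n + 1) := pow_le_pow_right₀ hK1 (by omega)
  have hle2 : K ≤ K ^ (n + 1) := by
    calc K = K ^ 1 := (pow_one K).symm
      _ ≤ K ^ (n + 1) := pow_le_pow_right₀ hK1 (by omega)
  have hone : (1 : ℝ) ≤ K ^ (n + 1) := one_le_pow₀ hK1
  classical
  obtain ⟨d, X, ψ, H, T, g1, g2, g3, g4, g5, g6, g7⟩ := h2
  obtain ⟨t, ht, ht2⟩ := pigeon T (Fintype.piFinset A) (Fintype.piFinset A) hne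
    (fun t a => ∃ x ∈ X, ∃ h ∈ H, a = t + ψ x + h) subset_rfl (by
      intro a ha
      refine g7 a ?_
      rw [← Finset.univ_sum_single a]
      refine sum_mem_sum _ _ _ fun i _ => ?_
      exact Finset.mem_image.2 ⟨a i, Fintype.mem_piFinset.1 ha i, rfl⟩)
  have hdata : Data (K ^ (n + 1)) (Fintype.piFinset A) X ψ H t := by
    refine ⟨g1, g2, ?_, ?_, ?_, ?_⟩
    · exact g3.trans (mul_le_mul_of_nonneg_right hle (Nat.cast_nonneg _))
    · have h8 := Set.ncard_le_ncard g4 (Finset.finite_toSet _)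
      rw [Set.ncard_coe_finset] at h8
      calc ((hull X).ncard : ℝ) ≤ 1 * X.card := by rw [one_mul]; exact_mod_cast h8
        _ ≤ _ := mul_le_mul_of_nonneg_right hone (Nat.cast_nonneg _)
    · exact g5.trans (mul_le_mul_of_nonneg_right hle2 (Nat.cast_nonneg _))
    · have h8 : {a | a ∈ Fintype.piFinset A ∧ ∃ x ∈ X, ∃ h ∈ H, a = t + ψ x + h} =
          (((Fintype.piFinset A).filter (fun a => ∃ x ∈ X, ∃ h ∈ H, a = t + ψ x + h) :
            Finset (∀ i, Γ i)) : Set (∀ i, Γ i)) := by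
        rw [Finset.coe_filter]
      rw [h8, Set.ncard_coe_finset]
      calc ((Fintype.piFinset A).card : ℝ) ≤ T.card *
            ((Fintype.piFinset A).filter
              (fun a => ∃ x ∈ X, ∃ h ∈ H, a = t + ψ x + h)).card := by exact_mod_cast ht2
        _ ≤ _ := mul_le_mul_of_nonneg_right (g6.trans hle) (Nat.cast_nonneg _)
  obtain ⟨r, B, θ, H', T', k1, k2, k3, k4, k5, k6⟩ := main hne
    (hKm.ge.trans (mul_le_mul_of_nonneg_right hle2 (Nat.cast_nonneg _))) hdata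
  have hlogK : 0 ≤ Real.log (2 * K) := Real.log_nonneg (by linarith)
  refine ⟨r, B, θ, H', T', ?_, k2, k3, k4, ?_, k6⟩
  · have h7 : 2 * K ^ (n + 1) ≤ (2 * K) ^ (n + 1) := by
      rw [mul_pow]
      refine mul_le_mul_of_nonneg_right ?_ (by positivity)
      calc (2 : ℝ) = 2 ^ 1 := (pow_one 2).symm
        _ ≤ 2 ^ (n + 1) := pow_le_pow_right₀ (by norm_num) (by omega)
    have h8 : Real.log (2 * K ^ (n + 1)) ≤ ((n + 1 : ℕ) : ℝ) * Real.log (2 * K) := by
      rw [← Real.log_pow]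
      exact Real.log_le_log (by positivity) h7
    calc (r : ℝ) ≤ 500 * Real.log (2 * K ^ (n + 1)) := k1
      _ ≤ 500 * (((n + 1 : ℕ) : ℝ) * Real.log (2 * K)) := mul_le_mul_of_nonneg_left h8 (by norm_num)
      _ = (500 * ((n + 1 : ℕ) : ℝ)) * Real.log (2 * K) := by ring
      _ ≤ (250000000 * (1 + l)) * Real.log (2 * K) := by
        refine mul_le_mul_of_nonneg_right ?_ hlogK
        linarith
  · have h9 : (((n + 1) * 5000 : ℕ) : ℝ) ≤ 250000000 * (1 + l) := by
      rw [Nat.cast_mul]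
      push_cast at hn1 ⊢
      linarith
    have h10 : (5000 : ℝ) ≤ 250000000 * (1 + l) := by linarith
    calc (T'.card : ℝ) ≤ 5000 * (K ^ (n + 1)) ^ 5000 := k5
      _ = 5000 * K ^ ((n + 1) * 5000) := by rw [← pow_mul]
      _ = 5000 * K ^ (((n + 1) * 5000 : ℕ) : ℝ) := by rw [Real.rpow_natCast]
      _ ≤ (250000000 * (1 + l)) * K ^ (250000000 * (1 + l)) :=
        mul_le_mul h10 (Real.rpow_le_rpow_of_exponent_le hK1 h9) (by positivity) (by positivity)

end Pool.Agent.H356PF
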