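import Mathlib

set_option autoImplicit false

/-! Sets with doubling less than `3 / 2`, additively. -/

namespace Pool.Agent.H356PF

open Finset
open scoped Pointwise

theorem small_doubling {Γ : Type*} [AddCommGroup Γ] [DecidableEq Γ] {A : Finset Γ}
    (hA : A.Nonempty) (h : ((A + A).card : ℝ) < 3 / 2 * A.card) :
    ∃ (H : AddSubgroup Γ) (t : Γ), Finite H ∧ (∀ a ∈ A, a - t ∈ H) ∧
      Nat.card H = (A + A).card := by
  classical
  set A' : Finset (Multiplicative Γ) := A.map (Multiplicative.ofAdd).toEmbedding with hA'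
  have hcard : A'.card = A.card := Finset.card_map _
  have hmul : A' * A' = (A + A).map (Multiplicative.ofAdd).toEmbedding := by
    ext x
    simp only [hA', Finset.mem_mul, Finset.mem_map, Finset.mem_add, Equiv.coe_toEmbedding]
    constructor
    · rintro ⟨_, ⟨y, hy, rfl⟩, _, ⟨z, hz, rfl⟩, rfl⟩
      exact ⟨y + z, ⟨y, hy, z, hz, rfl⟩, rfl⟩
    · rintro ⟨_, ⟨y, hy, z, hz, rfl⟩, rfl⟩
      exact ⟨_, ⟨y, hy, rfl⟩, _, ⟨z, hz, rfl⟩, rfl⟩
  have hmulc : (A' * A').card = (A + A).card := by rw [hmul, Finset.card_map]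
  have hq : ((A' * A').card : ℚ) < (3 / 2 : ℚ) * (A'.card : ℚ) := by
    rw [hmulc, hcard]
    have : (2 * ((A + A).card : ℝ)) < 3 * A.card := by linarith
    have h2 : 2 * (A + A).card < 3 * A.card := by exact_mod_cast this
    have h3 : (2 * ((A + A).card : ℚ)) < 3 * A.card := by exact_mod_cast h2
    linarith
  set H' := Finset.invMulSubgroup A' hq with hH'
  have hmem : ∀ x : Multiplicative Γ, x ∈ H' ↔ x ∈ A'⁻¹ * A' := by
    intro x
    rw [← SetLike.mem_coe, hH', Finset.invMulSubgroup_eq_inv_mul]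
    rw [← Finset.coe_mul, Finset.mem_coe]
  set H : AddSubgroup Γ := AddSubgroup.toSubgroup.symm H' with hH
  have hmem2 : ∀ x : Γ, x ∈ H ↔ Multiplicative.ofAdd x ∈ H' := fun x => Iff.rfl
  have hset : (H : Set Γ) = (fun x => Multiplicative.ofAdd x) ⁻¹' (A'⁻¹ * A' : Finset _) := by
    ext x
    rw [SetLike.mem_coe, hmem2, hmem]
    rfl
  have hfin : (H : Set Γ).Finite := by
    rw [hset]
    exact (Finset.finite_toSet _).preimage (Multiplicative.ofAdd.injective.injOn)
  obtain ⟨t, ht⟩ := hA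
  refine ⟨H, t, hfin.to_subtype, ?_, ?_⟩
  · intro a ha
    rw [hmem2, hmem, Finset.mem_mul]
    refine ⟨(Multiplicative.ofAdd t)⁻¹, Finset.inv_mem_inv (Finset.mem_map.2 ⟨t, ht, rfl⟩),
      Multiplicative.ofAdd a, Finset.mem_map.2 ⟨a, ha, rfl⟩, ?_⟩
    rw [← ofAdd_neg, ← ofAdd_add]
    congr 1
    abel
  · have h1 : Nat.card H = (A'⁻¹ * A').card := by
      have h2 : Nat.card H = (H : Set Γ).ncard := rfl
      rw [h2, hset, ← Set.ncard_coe_finset]
      exact Set.ncard_preimage_of_injective_subset_range Multiplicative.ofAdd.injective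
        (fun x _ => ⟨Multiplicative.toAdd x, rfl⟩)
    rw [h1, Finset.card_inv_mul_of_doubling_lt_three_halves hq, hmulc]

end Pool.Agent.H356PF
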