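import Pool.Agent.H356PF.Prod
import Pool.Agent.H356PF.Small

set_option autoImplicit false

namespace Pool.Agent.H356PF

open Finset
open Pool.Agent.Y806.DF Pool.Agent.R92.Star
open scoped Pointwise

universe u

theorem one_le_dbl {Γ : Type*} [AddCommGroup Γ] [DecidableEq Γ] {A : Finset Γ}
    (hA : A.Nonempty) : 1 ≤ dbl A := by
  have hpos : (0 : ℝ) < A.card := by exact_mod_cast hA.card_pos
  rw [dbl, le_div_iff₀ hpos, one_mul]
  exact_mod_cast Finset.card_le_card_add_right hA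

theorem dbl_mul {Γ : Type*} [AddCommGroup Γ] [DecidableEq Γ] {A : Finset Γ}
    (hA : A.Nonempty) : dbl A * A.card = (A + A).card := by
  have hpos : (0 : ℝ) < A.card := by exact_mod_cast hA.card_pos
  rw [dbl, div_mul_cancel₀ _ hpos.ne']

/-- The covering data of one set, in terms of powers of its doubling, without constants. -/
theorem factor (C : ℝ) : ∃ n : ℕ, ∀ (Γ : Type u) [AddCommGroup Γ] [DecidableEq Γ]
    (A : Finset Γ), A.Nonempty → Concl C (dbl A) A →
      SC ((dbl A) ^ n) (dbl A * A.card) ((dbl A) ^ n) A := by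
  obtain ⟨n, hn1, hn, hCK⟩ := nat_const C
  refine ⟨8 * n, ?_⟩
  intro Γ _ _ A hA hC
  obtain ⟨K, hKdef⟩ : ∃ K, K = dbl A := ⟨_, rfl⟩
  have hK1 : 1 ≤ K := by rw [hKdef]; exact one_le_dbl hA
  have hcard : K * A.card = (A + A).card := by rw [hKdef]; exact dbl_mul hA
  rw [← hKdef] at hC ⊢
  have hApos : (0 : ℝ) < A.card := by exact_mod_cast hA.card_pos
  by_cases hK : K < 3 / 2
  · have h1 : ((A + A).card : ℝ) < 3 / 2 * A.card := by
      rw [← hcard]; exact mul_lt_mul_of_pos_right hK hApos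
    obtain ⟨H, t, hH, hcos, hHc⟩ := small_doubling hA h1
    refine (SC.coset hH hcos (N := K * A.card) ?_).mono (one_le_pow₀ hK1) le_rfl
      (one_le_pow₀ hK1)
    rw [hcard, hHc]
  · push Not at hK
    have hlog0 : 0 ≤ Real.log (2 * K) := Real.log_nonneg (by linarith)
    obtain ⟨d, B, ψ, H, T, hd, hB, hH, hvol, hT, hcov⟩ := hC
    have hsym : Sym B := ⟨hB.1, hB.2.1, hB.2.2.2, hB.2.2.1.mono interior_subset⟩
    have hfin : (lat B).Finite := lat_finite hB.2.1.isBounded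
    have h2 : (2 : ℝ) ≤ K ^ 2 := by nlinarith
    have h2K : 2 * K ≤ K ^ 3 := by
      calc 2 * K ≤ K ^ 2 * K := mul_le_mul_of_nonneg_right h2 (by linarith)
        _ = K ^ 3 := by ring
    have hdd : (4 : ℝ) ^ d ≤ K ^ (8 * n) := by
      have e1 : (d : ℝ) ≤ n * Real.log (2 * K) := hd.trans (mul_le_mul_of_nonneg_right hn hlog0)
      have e2 : Real.log 4 ≤ 2 := by
        rw [show (4 : ℝ) = 2 ^ 2 by norm_num, Real.log_pow]
        have := Real.log_two_lt_d9
        push_cast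
        linarith
      have e3 : Real.log ((4 : ℝ) ^ d) ≤ Real.log ((2 * K) ^ (2 * n)) := by
        rw [Real.log_pow, Real.log_pow]
        calc (d : ℝ) * Real.log 4 ≤ d * 2 := mul_le_mul_of_nonneg_left e2 (Nat.cast_nonneg _)
          _ ≤ (n * Real.log (2 * K)) * 2 := mul_le_mul_of_nonneg_right e1 (by norm_num)
          _ = ((2 * n : ℕ) : ℝ) * Real.log (2 * K) := by push_cast; ring
      have e4 : (4 : ℝ) ^ d ≤ (2 * K) ^ (2 * n) :=
        (Real.log_le_log_iff (by positivity) (by positivity)).1 e3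
      calc (4 : ℝ) ^ d ≤ (2 * K) ^ (2 * n) := e4
        _ ≤ (K ^ 3) ^ (2 * n) := pow_le_pow_left₀ (by positivity) h2K _
        _ = K ^ (6 * n) := by rw [← pow_mul]; congr 1; ring
        _ ≤ K ^ (8 * n) := pow_le_pow_right₀ hK1 (by omega)
    refine ⟨d, hfin.toFinset, ψ, H, T, ?_, hH, ?_, ?_, ?_, ?_, ?_⟩
    · refine ⟨0, ?_⟩
      rw [Set.Finite.mem_toFinset]
      show re 0 ∈ B
      have : re (0 : Fin d → ℤ) = 0 := by funext i; simp [re]
      rw [this]
      exact hsym.zero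
    · have h1 : (hfin.toFinset + hfin.toFinset).card ≤ num B 2 := by
        rw [num, Set.ncard_eq_toFinset_card _ (hsym.finite 2)]
        refine Finset.card_le_card ?_
        intro x hx
        obtain ⟨a, ha, b, hb, rfl⟩ := Finset.mem_add.1 hx
        rw [Set.Finite.mem_toFinset] at ha hb ⊢
        have ha' : a ∈ lat ((1 : ℝ) • B) := by rw [one_smul]; exact ha
        have hb' : b ∈ lat ((1 : ℝ) • B) := by rw [one_smul]; exact hb
        have h2 := hsym.add (by norm_num) (by norm_num) ha' hb'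
        norm_num at h2
        exact h2
      have h2 : num B 2 ≤ 4 ^ d * hfin.toFinset.card := by
        have h3 := num_double hsym (t := 1) (by norm_num)
        rw [mul_one] at h3
        have h4 : num B 1 = hfin.toFinset.card := by
          rw [num, one_smul]
          exact Set.ncard_eq_toFinset_card _ hfin
        rwa [h4] at h3
      calc ((hfin.toFinset + hfin.toFinset).card : ℝ) ≤ ((4 ^ d * hfin.toFinset.card : ℕ) : ℝ) := by
            exact_mod_cast h1.trans h2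
        _ = (4 : ℝ) ^ d * hfin.toFinset.card := by push_cast; rfl
        _ ≤ _ := mul_le_mul_of_nonneg_right hdd (Nat.cast_nonneg _)
    · intro v hv
      rw [Finset.mem_coe, Set.Finite.mem_toFinset]
      refine convexHull_min ?_ hsym.conv hv
      rintro _ ⟨x, hx, rfl⟩
      rw [Finset.mem_coe, Set.Finite.mem_toFinset] at hx
      exact hx
    · have h1 : (hfin.toFinset.card : ℝ) * Nat.card H ≤ A.card := by
        rw [Set.ncard_eq_toFinset_card _ hfin] at hvol
        exact_mod_cast hvol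
      nlinarith
    · have h3 : (n : ℝ) ≤ (K ^ 2) ^ n := by
        calc (n : ℝ) ≤ 2 ^ n := by exact_mod_cast (Nat.lt_two_pow_self).le
          _ ≤ (K ^ 2) ^ n := pow_le_pow_left₀ (by norm_num) h2 n
      calc (T.card : ℝ) ≤ C * K ^ C := hT
        _ ≤ n * K ^ n := hCK K hK1
        _ ≤ (K ^ 2) ^ n * K ^ n := mul_le_mul_of_nonneg_right h3 (by positivity)
        _ = K ^ (3 * n) := by rw [← pow_mul, ← pow_add]; congr 1; ring
        _ ≤ K ^ (8 * n) := pow_le_pow_right₀ hK1 (by omega)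
    · intro a ha
      obtain ⟨t, ht, x, hx, h, hh, e⟩ := hcov a ha
      exact ⟨t, ht, x, (Set.Finite.mem_toFinset _).2 hx, h, hh, e⟩

/-- Sets of bounded doubling satisfy the conclusion of Q1 with respect to their own doubling. -/
theorem bounded_concl (K0 : ℝ) : ∃ C : ℝ, ∀ (Γ : Type u) [AddCommGroup Γ] [DecidableEq Γ]
    (A : Finset Γ), A.Nonempty → ((A + A).card : ℝ) ≤ K0 * A.card → Concl C (dbl A) A := by
  obtain ⟨n, hn⟩ := exists_nat_ge (13000 * (1 + Real.log (1 + Real.log (2 * K0))))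
  refine ⟨((2 ^ n + 300 : ℕ) : ℝ), ?_⟩
  intro Γ _ _ A hA hK0
  obtain ⟨K, hKdef⟩ : ∃ K, K = dbl A := ⟨_, rfl⟩
  have hK1 : 1 ≤ K := by rw [hKdef]; exact one_le_dbl hA
  have hcard : K * A.card = (A + A).card := by rw [hKdef]; exact dbl_mul hA
  have hApos : (0 : ℝ) < A.card := by exact_mod_cast hA.card_pos
  rw [← hKdef]
  have hKK0 : K ≤ K0 := by
    rw [← hcard] at hK0
    exact le_of_mul_le_mul_right hK0 hApos
  obtain ⟨d, B, ψ, H, T, hd, hB, hH, hvol, hT, hcov⟩ := H112.near_pfr hA hcard.ge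
  have hlog0 : 0 ≤ Real.log (2 * K) := Real.log_nonneg (by linarith)
  refine ⟨d, B, ψ, H, T, ?_, ⟨hB.1, hB.2.1, hB.2.2.1, hB.2.2.2⟩, hH, hvol, ?_, hcov⟩
  · refine hd.trans (mul_le_mul_of_nonneg_right ?_ hlog0)
    push_cast
    have : (0 : ℝ) < 2 ^ n := by positivity
    linarith
  · have h1 : Real.log (2 * K) ≤ Real.log (2 * K0) := Real.log_le_log (by linarith) (by linarith)
    have h2 : Real.log (1 + Real.log (2 * K)) ≤ Real.log (1 + Real.log (2 * K0)) :=
      Real.log_le_log (by linarith) (by linarith)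
    have h3 : 13000 * (1 + Real.log (1 + Real.log (2 * K))) ≤ (n : ℝ) := by linarith
    have h4 : n ≤ 2 ^ n + 300 := by
      have := (Nat.lt_two_pow_self (n := n)).le
      omega
    have h5 : (1 : ℝ) ≤ 2 * K := by linarith
    calc (T.card : ℝ) ≤ (2 * K) ^ (13000 * (1 + Real.log (1 + Real.log (2 * K)))) := hT
      _ ≤ (2 * K) ^ (n : ℝ) := Real.rpow_le_rpow_of_exponent_le h5 h3
      _ = 2 ^ n * K ^ n := by rw [Real.rpow_natCast, mul_pow]
      _ ≤ ((2 ^ n + 300 : ℕ) : ℝ) * K ^ ((2 ^ n + 300 : ℕ) : ℝ) := by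
        rw [Real.rpow_natCast]
        refine mul_le_mul ?_ (pow_le_pow_right₀ hK1 h4) (by positivity) (Nat.cast_nonneg _)
        push_cast
        linarith

/-- From covering data for `P` to the conclusion of Q1 for a set `A` which is commensurable
with `P`. -/
theorem assemble (n : ℕ) (hn : 1 ≤ n) : ∃ C : ℝ, ∀ (Γ : Type u) [AddCommGroup Γ] [DecidableEq Γ]
    (K : ℝ) (A P S : Finset Γ) (D N M : ℝ), A.Nonempty → ((A + A).card : ℝ) ≤ K * A.card →
      SC D N M P → D ≤ n * K ^ n → N ≤ n * K ^ n * A.card → M ≤ n * K ^ n →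
      (S.card : ℝ) ≤ n * K ^ n → A ⊆ S + P → Concl C K A := by
  classical
  obtain ⟨m, hm⟩ : ∃ m : ℕ, m = n ^ 2 + 2 * n := ⟨_, rfl⟩
  refine ⟨((5000 * m ^ 5000 : ℕ) : ℝ), ?_⟩
  intro Γ _ _ K A P S D N M hA hK hSC hD hN hM hS hsub
  have hm1 : 1 ≤ m := by rw [hm]; omega
  have hK1 := one_le_K hA hK
  have hK0 : 0 < K := by linarith
  have hn1r : (1 : ℝ) ≤ n := by exact_mod_cast hn
  have hsq : ((n : ℝ) * K ^ n) * (n * K ^ n) ≤ m * K ^ m := by
    have e1 : ((n : ℝ) * n) ≤ m := by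
      rw [hm]; push_cast; nlinarith
    have e2 : K ^ (n + n) ≤ K ^ m := pow_le_pow_right₀ hK1 (by rw [hm]; omega)
    calc ((n : ℝ) * K ^ n) * (n * K ^ n) = (n * n) * K ^ (n + n) := by rw [pow_add]; ring
      _ ≤ m * K ^ m := mul_le_mul e1 e2 (by positivity) (by positivity)
  have hone : 1 ≤ (n : ℝ) * K ^ n := by
    have : 1 ≤ K ^ n := one_le_pow₀ hK1
    nlinarith
  have hle : (n : ℝ) * K ^ n ≤ m * K ^ m := by nlinarith
  have hone' : (1 : ℝ) ≤ m * K ^ m := hone.trans hle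
  obtain ⟨d, X, ψ, H, T, h1, h2, h3, h4, h5, h6, h7⟩ := hSC
  obtain ⟨t, ht, ht2⟩ := pigeon (S + T) A A hA (fun t a => ∃ x ∈ X, ∃ h ∈ H, a = t + ψ x + h)
    subset_rfl (by
      intro a ha
      obtain ⟨s, hs, p, hp, rfl⟩ := Finset.mem_add.1 (hsub ha)
      obtain ⟨t, ht, x, hx, h, hh, e⟩ := h7 p hp
      refine ⟨s + t, Finset.add_mem_add hs ht, x, hx, h, hh, ?_⟩
      rw [e]; abel)
  refine concl_of_data hm1 hA hK (d := d) (X := X) (ψ := ψ) (H := H) (g := t)
    ⟨h1, h2, ?_, ?_, ?_, ?_⟩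
  · exact h3.trans (mul_le_mul_of_nonneg_right (hD.trans hle) (Nat.cast_nonneg _))
  · have h8 := Set.ncard_le_ncard h4 (Finset.finite_toSet _)
    rw [Set.ncard_coe_finset] at h8
    calc ((hull X).ncard : ℝ) ≤ 1 * X.card := by rw [one_mul]; exact_mod_cast h8
      _ ≤ _ := mul_le_mul_of_nonneg_right hone' (Nat.cast_nonneg _)
  · exact h5.trans (hN.trans (mul_le_mul_of_nonneg_right hle (Nat.cast_nonneg _)))
  · have h8 : {a : Γ | a ∈ A ∧ ∃ x ∈ X, ∃ h ∈ H, a = t + ψ x + h} =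
        ((A.filter (fun a => ∃ x ∈ X, ∃ h ∈ H, a = t + ψ x + h) : Finset Γ) : Set Γ) := by
      rw [Finset.coe_filter]
    rw [h8, Set.ncard_coe_finset]
    have h9 : ((S + T).card : ℝ) ≤ m * K ^ m := by
      calc ((S + T).card : ℝ) ≤ (S.card : ℝ) * T.card := by exact_mod_cast Finset.card_add_le
        _ ≤ (n * K ^ n) * (n * K ^ n) := mul_le_mul hS (h6.trans hM) (Nat.cast_nonneg _)
          (by positivity)
        _ ≤ _ := hsq
    calc (A.card : ℝ) ≤ (S + T).card *
          (A.filter (fun a => ∃ x ∈ X, ∃ h ∈ H, a = t + ψ x + h)).card := by exact_mod_cast ht2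
      _ ≤ _ := mul_le_mul_of_nonneg_right h9 (Nat.cast_nonneg _)

end Pool.Agent.H356PF
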