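import Pool.Agent.R92.Star.Pfr
import Pool.Agent.H112R2.Final

set_option autoImplicit false

/-! Coset progressions covering sums of arbitrarily many sets. -/

namespace Pool.Agent.H356PF

open Finset
open Pool.Agent.Y806.DF Pool.Agent.R92.Star
open scoped Pointwise

universe u

/-- the doubling of a finite set -/
noncomputable def dbl {Γ : Type*} [AddCommGroup Γ] [DecidableEq Γ] (A : Finset Γ) : ℝ :=
  ((A + A).card : ℝ) / A.card

/-- `A` is covered by few translates of a coset progression `ψ(X) + H` -/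
def SC {Γ : Type*} [AddCommGroup Γ] (D N M : ℝ) (A : Finset Γ) : Prop :=
  ∃ (d : ℕ) (X : Finset (Fin d → ℤ)) (ψ : (Fin d → ℤ) →+ Γ) (H : AddSubgroup Γ) (T : Finset Γ),
    X.Nonempty ∧ Finite H ∧ ((X + X).card : ℝ) ≤ D * X.card ∧
    hull X ⊆ (X : Set (Fin d → ℤ)) ∧
    (X.card : ℝ) * Nat.card H ≤ N ∧ (T.card : ℝ) ≤ M ∧
    ∀ a ∈ A, ∃ t ∈ T, ∃ x ∈ X, ∃ h ∈ H, a = t + ψ x + h

theorem SC.mono {Γ : Type*} [AddCommGroup Γ] {D N M D' N' M' : ℝ} {A : Finset Γ}
    (h : SC D N M A) (hD : D ≤ D') (hN : N ≤ N') (hM : M ≤ M') : SC D' N' M' A := by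
  obtain ⟨d, X, ψ, H, T, h1, h2, h3, h4, h5, h6, h7⟩ := h
  exact ⟨d, X, ψ, H, T, h1, h2, h3.trans (mul_le_mul_of_nonneg_right hD (Nat.cast_nonneg _)), h4,
    h5.trans hN, h6.trans hM, h7⟩

theorem card_sup_le {Γ : Type*} [AddCommGroup Γ] (H H' : AddSubgroup Γ) [Finite H] [Finite H'] :
    Finite (H ⊔ H' : AddSubgroup Γ) ∧ Nat.card (H ⊔ H' : AddSubgroup Γ) ≤ Nat.card H * Nat.card H' := by
  let f : H × H' → (H ⊔ H' : AddSubgroup Γ) := fun p =>
    ⟨(p.1 : Γ) + (p.2 : Γ), AddSubgroup.add_mem_sup p.1.2 p.2.2⟩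
  have hf : Function.Surjective f := by
    rintro ⟨x, hx⟩
    obtain ⟨y, hy, z, hz, rfl⟩ := AddSubgroup.mem_sup.1 hx
    exact ⟨(⟨y, hy⟩, ⟨z, hz⟩), rfl⟩
  refine ⟨Finite.of_surjective f hf, ?_⟩
  rw [← Nat.card_prod]
  exact Nat.card_le_card_of_surjective f hf

theorem SC.add {Γ : Type*} [AddCommGroup Γ] [DecidableEq Γ] {D N M D' N' M' : ℝ}
    {A A' : Finset Γ} (hN0 : 0 ≤ N) (hM0 : 0 ≤ M) (hD0 : 0 ≤ D)
    (h : SC D N M A) (h' : SC D' N' M' A') : SC (D * D') (N * N') (M * M') (A + A') := by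
  classical
  obtain ⟨d, X, ψ, H, T, h1, h2, h3, h4, h5, h6, h7⟩ := h
  obtain ⟨e, Y, θ, J, S, g1, g2, g3, g4, g5, g6, g7⟩ := h'
  obtain ⟨hf, hc⟩ := card_sup_le H J
  refine ⟨d + e, prd X Y, ψ.comp pl + θ.comp pr, H ⊔ J, T + S, ?_, hf, ?_, ?_, ?_, ?_, ?_⟩
  · obtain ⟨x, hx⟩ := h1
    obtain ⟨y, hy⟩ := g1
    refine ⟨Fin.append x y, mem_prd.2 ?_⟩
    rw [pl_append, pr_append]
    exact ⟨hx, hy⟩
  · have e1 : (prd X Y + prd X Y).card ≤ (X + X).card * (Y + Y).card := by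
      rw [← card_prd]
      exact Finset.card_le_card (prd_add X Y)
    rw [card_prd]
    push_cast
    calc ((prd X Y + prd X Y).card : ℝ) ≤ ((X + X).card : ℝ) * (Y + Y).card := by exact_mod_cast e1
      _ ≤ (D * X.card) * (D' * Y.card) := mul_le_mul h3 g3 (Nat.cast_nonneg _) (by positivity)
      _ = D * D' * (X.card * Y.card) := by ring
  · intro v hv
    have := hull_prd X Y hv
    rw [Finset.mem_coe, mem_prd]
    exact ⟨Finset.mem_coe.1 (h4 this.1), Finset.mem_coe.1 (g4 this.2)⟩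
  · rw [card_prd]
    have hc' : ((Nat.card (H ⊔ J : AddSubgroup Γ) : ℕ) : ℝ) ≤ (Nat.card H : ℝ) * Nat.card J := by
      exact_mod_cast hc
    calc (((X.card * Y.card : ℕ) : ℝ)) * (Nat.card (H ⊔ J : AddSubgroup Γ) : ℝ)
        ≤ ((X.card : ℝ) * Y.card) * ((Nat.card H : ℝ) * Nat.card J) := by
          rw [Nat.cast_mul]
          exact mul_le_mul_of_nonneg_left hc' (by positivity)
      _ = ((X.card : ℝ) * Nat.card H) * ((Y.card : ℝ) * Nat.card J) := by ring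
      _ ≤ N * N' := mul_le_mul h5 g5 (by positivity) hN0
  · calc ((T + S).card : ℝ) ≤ (T.card : ℝ) * S.card := by exact_mod_cast Finset.card_add_le
      _ ≤ M * M' := mul_le_mul h6 g6 (Nat.cast_nonneg _) hM0
  · intro a ha
    obtain ⟨b, hb, c, hc, rfl⟩ := Finset.mem_add.1 ha
    obtain ⟨t, ht, x, hx, k, hk, e1⟩ := h7 b hb
    obtain ⟨s, hs, y, hy, l, hl, e2⟩ := g7 c hc
    refine ⟨t + s, Finset.add_mem_add ht hs, Fin.append x y, ?_, k + l,
      AddSubgroup.add_mem_sup hk hl, ?_⟩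
    · rw [mem_prd, pl_append, pr_append]
      exact ⟨hx, hy⟩
    · rw [AddMonoidHom.add_apply, AddMonoidHom.comp_apply, AddMonoidHom.comp_apply, pl_append,
        pr_append, e1, e2]
      abel

theorem hull_sub_of_subsingleton (X : Finset (Fin 0 → ℤ)) (hX : X.Nonempty) :
    hull X ⊆ (X : Set (Fin 0 → ℤ)) := by
  intro v _
  obtain ⟨x, hx⟩ := hX
  rw [Subsingleton.elim v x]
  exact hx

/-- a set contained in a coset of a finite subgroup -/
theorem SC.coset {Γ : Type*} [AddCommGroup Γ] {A : Finset Γ} {H : AddSubgroup Γ} (hH : Finite H)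
    {t : Γ} (h : ∀ a ∈ A, a - t ∈ H) {N : ℝ} (hN : (Nat.card H : ℝ) ≤ N) : SC 1 N 1 A := by
  classical
  refine ⟨0, {0}, 0, H, {t}, by simp, hH, ?_, hull_sub_of_subsingleton _ (by simp), ?_, by simp, ?_⟩
  · simp
  · simpa using hN
  · intro a ha
    refine ⟨t, by simp, 0, by simp, a - t, h a ha, ?_⟩
    simp

theorem SC.zero {Γ : Type*} [AddCommGroup Γ] : SC (Γ := Γ) 1 1 1 {0} :=
  SC.coset (H := ⊥) (t := 0) (by infer_instance) (by simp) (by simp)

theorem SC.sum {Γ ι : Type*} [AddCommGroup Γ] [DecidableEq Γ] (s : Finset ι)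
    (D N M : ι → ℝ) (A : ι → Finset Γ) (hD : ∀ i ∈ s, 0 ≤ D i) (hN : ∀ i ∈ s, 0 ≤ N i)
    (hM : ∀ i ∈ s, 0 ≤ M i) (h : ∀ i ∈ s, SC (D i) (N i) (M i) (A i)) :
    SC (∏ i ∈ s, D i) (∏ i ∈ s, N i) (∏ i ∈ s, M i) (∑ i ∈ s, A i) := by
  classical
  induction s using Finset.induction_on with
  | empty =>
    rw [Finset.prod_empty, Finset.prod_empty, Finset.prod_empty, Finset.sum_empty]
    exact SC.zero
  | insert i s hi ih =>
    rw [Finset.prod_insert hi, Finset.prod_insert hi, Finset.prod_insert hi, Finset.sum_insert hi]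
    refine SC.add (hN i (Finset.mem_insert_self i s)) (hM i (Finset.mem_insert_self i s))
      (hD i (Finset.mem_insert_self i s)) (h i (Finset.mem_insert_self i s)) ?_
    exact ih (fun j hj => hD j (Finset.mem_insert_of_mem hj))
      (fun j hj => hN j (Finset.mem_insert_of_mem hj))
      (fun j hj => hM j (Finset.mem_insert_of_mem hj))
      (fun j hj => h j (Finset.mem_insert_of_mem hj))

theorem SC.image {Γ Γ' : Type*} [AddCommGroup Γ] [AddCommGroup Γ'] [DecidableEq Γ']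
    {D N M : ℝ} {A : Finset Γ} (f : Γ →+ Γ') (h : SC D N M A) : SC D N M (A.image f) := by
  classical
  obtain ⟨d, X, ψ, H, T, h1, h2, h3, h4, h5, h6, h7⟩ := h
  haveI := h2
  have hsurj : Function.Surjective (fun x : H => (⟨f x, AddSubgroup.mem_map_of_mem f x.2⟩ : H.map f)) := by
    rintro ⟨y, hy⟩
    obtain ⟨x, hx, rfl⟩ := AddSubgroup.mem_map.1 hy
    exact ⟨⟨x, hx⟩, rfl⟩
  have hfin : Finite (H.map f) := Finite.of_surjective _ hsurj
  have hcard : Nat.card (H.map f) ≤ Nat.card H := Nat.card_le_card_of_surjective _ hsurj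
  refine ⟨d, X, f.comp ψ, H.map f, T.image f, h1, hfin, h3, h4, ?_, ?_, ?_⟩
  · refine le_trans ?_ h5
    exact mul_le_mul_of_nonneg_left (by exact_mod_cast hcard) (Nat.cast_nonneg _)
  · refine le_trans ?_ h6
    exact_mod_cast Finset.card_image_le
  · intro a ha
    obtain ⟨b, hb, rfl⟩ := Finset.mem_image.1 ha
    obtain ⟨t, ht, x, hx, k, hk, e⟩ := h7 b hb
    refine ⟨f t, Finset.mem_image_of_mem f ht, x, hx, f k, AddSubgroup.mem_map_of_mem f hk, ?_⟩
    rw [e, map_add, map_add]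
    rfl

end Pool.Agent.H356PF
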