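import Pool.Agent.H356PF.Factor

set_option autoImplicit false

/-! The conclusion of Q1 for products of arbitrarily many sets. -/

namespace Pool.Agent.H356PF

open Finset
open Pool.Agent.Y806.DF Pool.Agent.R92.Star
open scoped Pointwise

universe u w

theorem sum_mem_sum {Γ ι : Type*} [AddCommGroup Γ] [DecidableEq Γ] (s : Finset ι)
    (A : ι → Finset Γ) (x : ι → Γ) (h : ∀ i ∈ s, x i ∈ A i) : ∑ i ∈ s, x i ∈ ∑ i ∈ s, A i := by
  classical
  induction s using Finset.induction_on with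
  | empty => simp
  | insert i s hi ih =>
    rw [Finset.sum_insert hi, Finset.sum_insert hi]
    exact Finset.add_mem_add (h i (Finset.mem_insert_self _ _))
      (ih fun j hj => h j (Finset.mem_insert_of_mem hj))

theorem exists_of_mem_sum {Γ ι : Type*} [AddCommGroup Γ] [DecidableEq Γ] (s : Finset ι)
    (A : ι → Finset Γ) {a : Γ} (h : a ∈ ∑ i ∈ s, A i) :
    ∃ x : ι → Γ, (∀ i ∈ s, x i ∈ A i) ∧ ∑ i ∈ s, x i = a := by
  classical
  induction s using Finset.induction_on generalizing a with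
  | empty =>
    rw [Finset.sum_empty, Finset.mem_zero] at h
    exact ⟨0, by simp, by simp [h]⟩
  | insert i s hi ih =>
    rw [Finset.sum_insert hi] at h
    obtain ⟨b, hb, c, hc, rfl⟩ := Finset.mem_add.1 h
    obtain ⟨x, hx, rfl⟩ := ih hc
    refine ⟨Function.update x i b, ?_, ?_⟩
    · intro j hj
      by_cases hji : j = i
      · subst hji; simpa using hb
      · rw [Function.update_of_ne hji]
        exact hx j ((Finset.mem_insert.1 hj).resolve_left hji)
    · rw [Finset.sum_insert hi, Function.update_self]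
      congr 1
      refine Finset.sum_congr rfl fun j hj => ?_
      rw [Function.update_of_ne]
      rintro rfl
      exact hi hj

theorem dbl_pi {ι : Type*} [Fintype ι] [DecidableEq ι] {Γ : ι → Type*}
    [∀ i, AddCommGroup (Γ i)] [∀ i, DecidableEq (Γ i)] (A : ∀ i, Finset (Γ i)) :
    dbl (Fintype.piFinset A) = ∏ i, dbl (A i) := by
  simp only [dbl]
  rw [← Fintype.piFinset_add, Fintype.card_piFinset, Fintype.card_piFinset]
  push_cast
  rw [Finset.prod_div_distrib]

/-- **Products.** -/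
theorem products (C : ℝ) : ∃ C' : ℝ, ∀ (ι : Type w) [Fintype ι] [DecidableEq ι] (Γ : ι → Type u)
    [∀ i, AddCommGroup (Γ i)] [∀ i, DecidableEq (Γ i)] (A : ∀ i, Finset (Γ i)),
    (∀ i, (A i).Nonempty) → (∀ i, Concl C (dbl (A i)) (A i)) →
    Concl C' (dbl (Fintype.piFinset A)) (Fintype.piFinset A) := by
  obtain ⟨n, hn⟩ := factor.{u} C
  obtain ⟨C', hC'⟩ := assemble.{max w u} (n + 1) (by omega)
  refine ⟨C', ?_⟩
  intro ι _ _ Γ _ _ A hA hC
  have hne : (Fintype.piFinset A).Nonempty := Fintype.piFinset_nonempty.2 hA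
  have h1 : ∀ i, SC ((dbl (A i)) ^ n) (dbl (A i) * (A i).card) ((dbl (A i)) ^ n)
      ((A i).image (AddMonoidHom.single Γ i)) :=
    fun i => SC.image (AddMonoidHom.single Γ i) (hn (Γ i) (A i) (hA i) (hC i))
  have hpos : ∀ i, 0 ≤ dbl (A i) := fun i => zero_le_one.trans (one_le_dbl (hA i))
  have h2 := SC.sum (Finset.univ : Finset ι) (fun i => (dbl (A i)) ^ n)
    (fun i => dbl (A i) * (A i).card) (fun i => (dbl (A i)) ^ n)
    (fun i => (A i).image (AddMonoidHom.single Γ i)) (fun i _ => pow_nonneg (hpos i) n)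
    (fun i _ => mul_nonneg (hpos i) (Nat.cast_nonneg _)) (fun i _ => pow_nonneg (hpos i) n)
    (fun i _ => h1 i)
  rw [Finset.prod_pow, Finset.prod_mul_distrib, ← dbl_pi] at h2
  have hcard : ∏ i, ((A i).card : ℝ) = (Fintype.piFinset A).card := by
    rw [Fintype.card_piFinset]; push_cast; rfl
  rw [hcard] at h2
  obtain ⟨K, hK⟩ : ∃ K, K = dbl (Fintype.piFinset A) := ⟨_, rfl⟩
  have hK1 : 1 ≤ K := by rw [hK]; exact one_le_dbl hne
  have hKm := dbl_mul hne
  rw [← hK] at h2 hKm ⊢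
  have hle : K ^ n ≤ ((n + 1 : ℕ) : ℝ) * K ^ (n + 1) := by
    have e1 : (1 : ℝ) ≤ ((n + 1 : ℕ) : ℝ) := by exact_mod_cast (by omega : 1 ≤ n + 1)
    calc K ^ n = 1 * K ^ n := (one_mul _).symm
      _ ≤ ((n + 1 : ℕ) : ℝ) * K ^ (n + 1) :=
        mul_le_mul e1 (pow_le_pow_right₀ hK1 (by omega)) (by positivity) (by positivity)
  have hle2 : K ≤ ((n + 1 : ℕ) : ℝ) * K ^ (n + 1) := by
    have e1 : (1 : ℝ) ≤ ((n + 1 : ℕ) : ℝ) := by exact_mod_cast (by omega : 1 ≤ n + 1)
    calc K = 1 * K ^ 1 := by rw [one_mul, pow_one]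
      _ ≤ ((n + 1 : ℕ) : ℝ) * K ^ (n + 1) :=
        mul_le_mul e1 (pow_le_pow_right₀ hK1 (by omega)) (by positivity) (by positivity)
  have hle3 : (1 : ℝ) ≤ ((n + 1 : ℕ) : ℝ) * K ^ (n + 1) := hK1.trans hle2
  refine hC' (∀ i, Γ i) K (Fintype.piFinset A) _ {0} _ _ _ hne hKm.ge h2 hle
    (mul_le_mul_of_nonneg_right hle2 (Nat.cast_nonneg _)) hle ?_ ?_
  · rw [Finset.card_singleton, Nat.cast_one]; exact hle3
  · intro a ha
    rw [Finset.mem_add]
    refine ⟨0, by simp, a, ?_, zero_add a⟩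
    rw [← Finset.univ_sum_single a]
    refine sum_mem_sum _ _ _ fun i _ => ?_
    exact Finset.mem_image.2 ⟨a i, Fintype.mem_piFinset.1 ha i, rfl⟩

end Pool.Agent.H356PF
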