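import Pool.Agent.H356PF.Products
import Pool.Agent.helper608_VF.V10

set_option autoImplicit false

/-! The conclusion of Q1 for sums of arbitrarily many sets. -/

namespace Pool.Agent.H356PF

open Finset
open Pool.Agent.Y806.DF Pool.Agent.R92.Star Pool.Agent.H608VF
open scoped Pointwise

universe u w

/-- Enlarging the constant and the doubling parameter polynomially. -/
theorem concl_poly (C : ℝ) (n : ℕ) : ∃ m : ℕ, n ≤ m ∧ ∀ (Γ : Type u) [AddCommGroup Γ]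
    (A : Finset Γ) (L K : ℝ), 1 ≤ K → 1 ≤ L → L ≤ n * K ^ n → Concl C L A →
      Concl (m : ℝ) K A := by
  obtain ⟨c, hc1, hc, hCK⟩ := nat_const C
  refine ⟨c * n ^ c + 2 * c * n + n, by omega, ?_⟩
  intro Γ _ A L K hK1 hL1 hL ⟨d, B, ψ, H, T, hd, hB, hH, hvol, hT, hcov⟩
  obtain ⟨m, hm⟩ : ∃ m, m = c * n ^ c + 2 * c * n + n := ⟨_, rfl⟩
  rw [← hm]
  have hK0 : 0 < K := by linarith
  have hlogK : 0 ≤ Real.log (2 * K) := Real.log_nonneg (by linarith)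
  have hlogL : 0 ≤ Real.log (2 * L) := Real.log_nonneg (by linarith)
  refine ⟨d, B, ψ, H, T, ?_, hB, hH, hvol, ?_, hcov⟩
  · have h7 : 2 * L ≤ (2 * K) ^ (2 * n) := by
      have e1 : 2 * (n : ℝ) ≤ 2 ^ (2 * n) := by
        have : 2 * n < 2 ^ (2 * n) := Nat.lt_two_pow_self
        exact_mod_cast this.le
      have e2 : K ^ n ≤ K ^ (2 * n) := pow_le_pow_right₀ hK1 (by omega)
      calc 2 * L ≤ 2 * (n * K ^ n) := by linarith
        _ = (2 * (n : ℝ)) * K ^ n := by ring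
        _ ≤ 2 ^ (2 * n) * K ^ (2 * n) := mul_le_mul e1 e2 (by positivity) (by positivity)
        _ = (2 * K) ^ (2 * n) := (mul_pow _ _ _).symm
    have h8 : Real.log (2 * L) ≤ (2 * n : ℕ) * Real.log (2 * K) := by
      rw [← Real.log_pow]
      exact Real.log_le_log (by positivity) h7
    have h9 : (c : ℝ) * (2 * n : ℕ) ≤ m := by
      rw [hm]; push_cast
      have : (0 : ℝ) ≤ c * (n : ℝ) ^ c := by positivity
      nlinarith [Nat.cast_nonneg (α := ℝ) n]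
    calc (d : ℝ) ≤ C * Real.log (2 * L) := hd
      _ ≤ c * Real.log (2 * L) := mul_le_mul_of_nonneg_right hc hlogL
      _ ≤ c * ((2 * n : ℕ) * Real.log (2 * K)) :=
        mul_le_mul_of_nonneg_left h8 (Nat.cast_nonneg _)
      _ = (c * (2 * n : ℕ)) * Real.log (2 * K) := by ring
      _ ≤ m * Real.log (2 * K) := mul_le_mul_of_nonneg_right h9 hlogK
  · rw [Real.rpow_natCast]
    calc (T.card : ℝ) ≤ C * L ^ C := hT
      _ ≤ c * L ^ c := hCK L hL1
      _ ≤ c * (n * K ^ n) ^ c :=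
        mul_le_mul_of_nonneg_left (pow_le_pow_left₀ (by linarith) hL c) (Nat.cast_nonneg _)
      _ = (c * (n : ℝ) ^ c) * K ^ (n * c) := by rw [mul_pow, ← pow_mul]; ring
      _ ≤ m * K ^ m := by
        refine mul_le_mul ?_ (pow_le_pow_right₀ hK1 ?_) (by positivity) (Nat.cast_nonneg _)
        · rw [hm]; push_cast
          have : (0 : ℝ) ≤ 2 * c * (n : ℝ) + n := by positivity
          linarith
        · rw [hm]
          have : n * c ≤ 2 * c * n := by nlinarith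
          omega

/-- Either kind of hypothesis on the factors gives the other one. -/
theorem concl_or (C : ℝ) : ∃ m : ℕ, C ≤ m ∧ 1 ≤ m ∧ (∀ K : ℝ, 1 ≤ K → C * K ^ C ≤ m * K ^ m) ∧
    ∀ (Γ : Type u) [AddCommGroup Γ] [DecidableEq Γ] (A : Finset Γ), A.Nonempty →
      (Concl C (dbl A) A ∨ ((A + A).card : ℝ) ≤ C * A.card) → Concl (m : ℝ) (dbl A) A := by
  obtain ⟨c, hc1, hc, hCK⟩ := nat_const C
  obtain ⟨C1, hC1⟩ := bounded_concl.{u} C
  obtain ⟨m1, hm1, h1⟩ := concl_poly.{u} C c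
  obtain ⟨m2, hm2, h2⟩ := concl_poly.{u} C1 m1
  obtain ⟨m3, hm3, h3⟩ := concl_poly.{u} (m1 : ℝ) m2
  have hbig : ∀ (K : ℝ) (n : ℕ), 1 ≤ K → 1 ≤ n → K ≤ (n : ℝ) * K ^ n := by
    intro K n hK hn
    have e1 : (1 : ℝ) ≤ (n : ℝ) := by exact_mod_cast hn
    calc K = 1 * K ^ 1 := by rw [one_mul, pow_one]
      _ ≤ (n : ℝ) * K ^ n := mul_le_mul e1 (pow_le_pow_right₀ hK hn) (by positivity) (by positivity)
  have h4 : ∀ (Γ : Type u) [AddCommGroup Γ] (A : Finset Γ) (K : ℝ), 1 ≤ K →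
      Concl (m2 : ℝ) K A → Concl (m3 : ℝ) K A := by
    intro Γ _ A K hK ⟨d, B, ψ, H, T, hd, hB, hH, hvol, hT, hcov⟩
    have e : (m2 : ℝ) ≤ m3 := by exact_mod_cast hm3
    refine ⟨d, B, ψ, H, T, hd.trans (mul_le_mul_of_nonneg_right e
      (Real.log_nonneg (by linarith))), hB, hH, hvol, hT.trans ?_, hcov⟩
    rw [Real.rpow_natCast, Real.rpow_natCast]
    exact mul_le_mul e (pow_le_pow_right₀ hK hm3) (by positivity) (by positivity)
  have hcm : c ≤ m3 := hm1.trans (hm2.trans hm3)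
  have hcmr : (c : ℝ) ≤ m3 := by exact_mod_cast hcm
  refine ⟨m3, hc.trans hcmr, hc1.trans hcm, ?_, ?_⟩
  · intro K hK
    exact (hCK K hK).trans (mul_le_mul hcmr (pow_le_pow_right₀ hK hcm) (by positivity)
      (by positivity))
  · intro Γ _ _ A hA h
    have hd := one_le_dbl hA
    rcases h with h | h
    · have e1 := h1 Γ A (dbl A) (dbl A) hd hd (hbig _ _ hd hc1) h
      exact h3 Γ A (dbl A) (dbl A) hd hd (hbig _ _ hd (hc1.trans (hm1.trans hm2))) e1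
    · have e1 := h2 Γ A (dbl A) (dbl A) hd hd (hbig _ _ hd (hc1.trans hm1)) (hC1 Γ A hA h)
      exact h4 Γ A (dbl A) hd e1

/-- **Products.** -/
theorem products' (C : ℝ) : ∃ C' : ℝ, ∀ (ι : Type w) [Fintype ι] [DecidableEq ι]
    (Γ : ι → Type u) [∀ i, AddCommGroup (Γ i)] [∀ i, DecidableEq (Γ i)]
    (A : ∀ i, Finset (Γ i)), (∀ i, (A i).Nonempty) →
    (∀ i, Concl C (dbl (A i)) (A i) ∨ ((A i + A i).card : ℝ) ≤ C * (A i).card) →
    Concl C' (dbl (Fintype.piFinset A)) (Fintype.piFinset A) := by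
  obtain ⟨m, _, _, _, h⟩ := concl_or.{u} C
  obtain ⟨C', hC'⟩ := products.{u, w} (m : ℝ)
  exact ⟨C', fun ι _ _ Γ _ _ A hA hC => hC' ι Γ A hA fun i => h (Γ i) (A i) (hA i) (hC i)⟩

/-- **Sums.** -/
theorem sums (C : ℝ) : ∃ C' : ℝ, ∀ (ι : Type w) [Fintype ι] (Γ : Type u) [AddCommGroup Γ]
    [DecidableEq Γ] (B : ι → Finset Γ) (H : AddSubgroup Γ) (K : ℝ) (A T : Finset Γ),
    (∀ i, (B i).Nonempty) →
    (∀ i, Concl C (dbl (B i)) (B i) ∨ ((B i + B i).card : ℝ) ≤ C * (B i).card) →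
    ∏ i, dbl (B i) ≤ C * K ^ C → Finite H →
    A.Nonempty → ((A + A).card : ℝ) ≤ K * A.card → (T.card : ℝ) ≤ C * K ^ C →
    (∀ a ∈ A, ∃ t ∈ T, ∃ b ∈ ∑ i, B i, ∃ h ∈ H, a = t + b + h) →
    ({y | ∃ b ∈ ∑ i, B i, ∃ h ∈ H, y = b + h}.ncard : ℝ) ≤ C * K ^ C * A.card →
    Concl C' K A := by
  classical
  obtain ⟨c, _, hc1, hcK, _⟩ := concl_or.{u} C
  obtain ⟨C1, hC1⟩ := products'.{u, w} C
  obtain ⟨m, hcm, hm⟩ := concl_poly.{max w u} C1 c
  obtain ⟨C', hC'⟩ := images.{max w u, u} (m : ℝ)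
  refine ⟨C', ?_⟩
  intro ι _ Γ _ _ B H K A T hB hBC hprod hH hA hK hT hcov hsz
  have hK1 := one_le_K hA hK
  have hle : C * K ^ C ≤ (m : ℝ) * K ^ (m : ℝ) := by
    rw [Real.rpow_natCast]
    refine (hcK K hK1).trans (mul_le_mul (by exact_mod_cast hcm) (pow_le_pow_right₀ hK1 hcm)
      (by positivity) (by positivity))
  have hne : (Fintype.piFinset B).Nonempty := Fintype.piFinset_nonempty.2 hB
  have h1 : dbl (Fintype.piFinset B) ≤ C * K ^ C := by rw [dbl_pi]; exact hprod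
  have h2 : Concl C1 (dbl (Fintype.piFinset B)) (Fintype.piFinset B) :=
    hC1 ι (fun _ => Γ) B hB hBC
  have h3 : Concl (m : ℝ) K (Fintype.piFinset B) :=
    hm _ _ _ K hK1 (one_le_dbl hne) (h1.trans (hcK K hK1)) h2
  have h4 : ((Fintype.piFinset B + Fintype.piFinset B).card : ℝ) ≤
      (m : ℝ) * K ^ (m : ℝ) * (Fintype.piFinset B).card := by
    rw [← dbl_mul hne]
    exact mul_le_mul_of_nonneg_right (h1.trans hle) (Nat.cast_nonneg _)
  let f : (ι → Γ) →+ Γ := ∑ i, Pi.evalAddMonoidHom (fun _ => Γ) i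
  have hf : ∀ x : ι → Γ, f x = ∑ i, x i := by
    intro x
    simp only [f, AddMonoidHom.finsetSum_apply, Pi.evalAddMonoidHom_apply]
  have hmem : ∀ b ∈ ∑ i, B i, ∃ x ∈ Fintype.piFinset B, f x = b := by
    intro b hb
    obtain ⟨x, hx, e⟩ := exists_of_mem_sum _ _ hb
    exact ⟨x, Fintype.mem_piFinset.2 fun i => hx i (Finset.mem_univ i), by rw [hf, e]⟩
  have hmem2 : ∀ x ∈ Fintype.piFinset B, f x ∈ ∑ i, B i := by
    intro x hx
    rw [hf]
    exact sum_mem_sum _ _ _ fun i _ => Fintype.mem_piFinset.1 hx i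
  refine hC' (ι → Γ) Γ f H K (Fintype.piFinset B) A T hH hne h4 h3 hA hK (hT.trans hle) ?_ ?_
  · intro a ha
    obtain ⟨t, ht, b, hb, h, hh, e⟩ := hcov a ha
    obtain ⟨x, hx, rfl⟩ := hmem b hb
    exact ⟨t, ht, x, hx, h, hh, e⟩
  · have h5 : {y | ∃ b ∈ Fintype.piFinset B, ∃ h ∈ H, y = f b + h} =
        {y | ∃ b ∈ ∑ i, B i, ∃ h ∈ H, y = b + h} := by
      ext y
      constructor
      · rintro ⟨x, hx, h, hh, rfl⟩
        exact ⟨f x, hmem2 x hx, h, hh, rfl⟩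
      · rintro ⟨b, hb, h, hh, rfl⟩
        obtain ⟨x, hx, rfl⟩ := hmem b hb
        exact ⟨x, hx, h, hh, rfl⟩
    rw [h5]
    exact hsz.trans (mul_le_mul_of_nonneg_right hle (Nat.cast_nonneg _))

end Pool.Agent.H356PF
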